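import Pool.Agent.Q134.RP6.Check
import Pool.Agent.Q134.RP6.R2

/-!
Kernel evaluation of the check of the facets, block 2.
-/

set_option autoImplicit false

namespace Pool.Agent.Q134.RP6

theorem c2 : chkBlock RB2 1280 640 = true := by decide +kernel

end Pool.Agent.Q134.RP6
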