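import Pool.Agent.Q134.RP6.Data1
import Pool.Agent.Q134.RP6.Data2

/-!
Boolean checks for the triangulation, written so that the kernel evaluates them fast.
-/

set_option autoImplicit false

namespace Pool.Agent.Q134.RP6

noncomputable section

/-- evaluate the argument first -/
def force {α : Type} (x : Nat) (f : Nat → α) : α := Nat.rec (f 0) (fun n _ => f (Nat.succ n)) x

theorem force_eq {α : Type} (x : Nat) (f : Nat → α) : force x f = f x := by cases x <;> rfl

/-- all of the first `n` -/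
def allN (n : Nat) (p : Nat → Bool) : Bool := Nat.rec true (fun i ih => and (p i) ih) n

theorem allN_iff {n : Nat} {p : Nat → Bool} : allN n p = true ↔ ∀ i, i < n → p i = true := by
  induction n with
  | zero =>
    constructor
    · intro _ i hi
      exact absurd hi (Nat.not_lt_zero i)
    · intro _
      rfl
  | succ n ih =>
    have h0 : allN (n + 1) p = and (p n) (allN n p) := rfl
    rw [h0, Bool.and_eq_true, ih]
    constructor
    · rintro ⟨h1, h2⟩ i hi
      rcases Nat.lt_succ_iff_lt_or_eq.1 hi with h | h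
      · exact h2 i h
      · rw [h]; exact h1
    · intro h
      exact ⟨h n (Nat.lt_succ_self n), fun i hi => h i (Nat.lt_succ_of_lt hi)⟩

/-- some of the first `n` -/
def anyN (n : Nat) (p : Nat → Bool) : Bool := Nat.rec false (fun i ih => or (p i) ih) n

theorem anyN_imp {n : Nat} {p : Nat → Bool} (h : anyN n p = true) : ∃ i, i < n ∧ p i = true := by
  induction n with
  | zero => exact absurd h (fun h => Bool.noConfusion h)
  | succ n ih =>
    have h0 : anyN (n + 1) p = or (p n) (anyN n p) := rfl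
    rw [h0, Bool.or_eq_true] at h
    rcases h with h | h
    · exact ⟨n, Nat.lt_succ_self n, h⟩
    · obtain ⟨i, hi, hp⟩ := ih h
      exact ⟨i, Nat.lt_succ_of_lt hi, hp⟩

/-- row `f` of a table with rows of `w` bits and blocks of 64 rows -/
def row (X w f : Nat) : Nat :=
  force (Nat.div f 64) fun q => force (Nat.mod f 64) fun r =>
    Nat.mod (Nat.shiftRight (Nat.mod (Nat.shiftRight X (Nat.mul (Nat.mul 64 w) q))
      (Nat.pow 2 (Nat.mul 64 w))) (Nat.mul w r)) (Nat.pow 2 w)

/-- the byte `k` -/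
def byte (a k : Nat) : Nat := Nat.mod (Nat.shiftRight a (Nat.mul 8 k)) 256

/-- remove the byte `k` -/
def rem (a k : Nat) : Nat :=
  Nat.add (Nat.mod a (Nat.pow 2 (Nat.mul 8 k)))
    (Nat.mul (Nat.shiftRight a (Nat.add (Nat.mul 8 k) 8)) (Nat.pow 2 (Nat.mul 8 k)))

/-- the entry `k` in a row of neighbours -/
def ent (n k : Nat) : Nat := Nat.mod (Nat.shiftRight n (Nat.mul 20 k)) 1048576

/-- nibble -/
def nib (t i : Nat) : Nat := Nat.mod (Nat.shiftRight t (Nat.mul 4 i)) 16

/-- coordinates of a vertex -/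
def SS (m : Nat) : Nat := Nat.mod (Nat.shiftRight ST (Nat.mul 70 m)) (Nat.pow 2 70)

/-- choice -/
def ch (s x y : Nat) : Nat := Nat.rec x (fun _ _ => y) s

/-- vertices of the facet `(g, s)` -/
def rowV (s g : Nat) : Nat := row (ch s FB FN) 56 g

/-- `∑ 1024 ^ j` -/
def TT : Nat := 1154048505100108801

/-- check of one flag -/
def chkFlag (f a n r S0 S1 S2 S3 S4 S5 S6 Z k : Nat) : Bool :=
  force (ent n k) fun e =>
  force (Nat.mod e 8192) fun g =>
  force (Nat.shiftRight e 14) fun k' =>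
  force (Nat.mod (Nat.shiftRight e 13) 2) fun s =>
  force (Nat.mod (Nat.shiftRight r (Nat.mul 32 k)) 4294967296) fun t =>
  force (rowV s g) fun b =>
  force (SS (byte b k')) fun Sw =>
    and (Nat.ble (Nat.succ g) 5096)
    (and (Nat.ble (Nat.succ k') 7)
    (and (Nat.beq (ent (row NB 140 g) (ch s k' (Nat.sub 6 k')))
      (ch s (Nat.add f (Nat.mul 16384 k)) (Nat.add f (Nat.add 8192 (Nat.mul 16384 (Nat.sub 6 k))))))
    (and (Nat.beq (rem a k) (rem b k'))
    (and (Nat.ble 6 (nib t k))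
    (and (Nat.ble 6 (nib t 7))
    (Nat.beq
      (Nat.add (Nat.mul (nib t 0) S0) (Nat.add (Nat.mul (nib t 1) S1)
        (Nat.add (Nat.mul (nib t 2) S2) (Nat.add (Nat.mul (nib t 3) S3)
        (Nat.add (Nat.mul (nib t 4) S4) (Nat.add (Nat.mul (nib t 5) S5)
        (Nat.add (Nat.mul (nib t 6) S6) (Nat.add (Nat.mul (nib t 7) Sw) (Nat.mul 40 TT)))))))))
      (Nat.add (Nat.mul TT (Nat.add (nib t 0) (Nat.add (nib t 1) (Nat.add (nib t 2)
        (Nat.add (nib t 3) (Nat.add (nib t 4) (Nat.add (nib t 5) (Nat.add (nib t 6) (nib t 7)))))))))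
        (Nat.mul 5 (Nat.add Z Sw)))))))))

/-- the set of the vertices as a number -/
def msk (a : Nat) : Nat :=
  Nat.lor (Nat.shiftLeft 1 (byte a 0)) (Nat.lor (Nat.shiftLeft 1 (byte a 1))
    (Nat.lor (Nat.shiftLeft 1 (byte a 2)) (Nat.lor (Nat.shiftLeft 1 (byte a 3))
    (Nat.lor (Nat.shiftLeft 1 (byte a 4)) (Nat.lor (Nat.shiftLeft 1 (byte a 5))
    (Nat.shiftLeft 1 (byte a 6)))))))

/-- adjacent vertices -/
def adj (m : Nat) : Nat := Nat.mod (Nat.shiftRight AD (Nat.mul 256 m)) (Nat.pow 2 256)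

/-- inclusion -/
def sub (m x : Nat) : Bool := Nat.beq (Nat.land m x) m

/-- the separating half spaces -/
@[irreducible] def NPT : Nat := 0xbf2b2b02ffbfbf2bbf2b2b02ffbfbf2bbf2b2b02ffbfbf2bbf2b2b02ffbfbf2bffffffff033f033fffffffff3fff3fff033f033f000000003fff3fff00030003d5545440d5545440d5545440d5545440fffdfdd5fffdfdd5fffdfdd5fffdfdd58eef088eefff8eef8eef088eefff8eef8eef088eefff8eef8eef088eefff8eeff0f330f0f3fff0f3f0f330f0f3fff0f3f0f330f0f3fff0f3f0f330f0f3fff0f3ff0fff0fff0fff0fff0fff0fff0fff0fff0fff0fff0fff0fff0fff0fff0fff0fffffffffffffffff0000000000000000ffffffffffffffffffffffffffffffffffffffffffffffffffffffffffffffff0000ffff0000ffff0000ffff0000ffffffffffff55555555ffffffff55555555ffffffff55555555ffffffff55555555ffff3333ffff3333ffff3333ffff3333ffff3333ffff3333ffff3333ffff3333ccccccccffffffffccccccccffffffffccccccccffffffffccccccccffffffff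

/-- separating half space -/
def npm (i : Nat) : Nat := Nat.mod (Nat.shiftRight NPT (Nat.mul 256 i)) (Nat.pow 2 256)

/-- check of a facet -/
def chkFacet (R i f : Nat) : Bool :=
  force (row FB 56 f) fun a =>
  force (row FN 56 f) fun c =>
  force (row NB 140 f) fun n =>
  force (Nat.mod (Nat.shiftRight R (Nat.mul 224 i)) (Nat.pow 2 224)) fun r =>
  force (SS (byte a 0)) fun S0 =>
  force (SS (byte a 1)) fun S1 =>
  force (SS (byte a 2)) fun S2 =>
  force (SS (byte a 3)) fun S3 =>
  force (SS (byte a 4)) fun S4 =>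
  force (SS (byte a 5)) fun S5 =>
  force (SS (byte a 6)) fun S6 =>
  force (Nat.add S0 (Nat.add S1 (Nat.add S2 (Nat.add S3 (Nat.add S4 (Nat.add S5 S6)))))) fun Z =>
  force (msk a) fun ma =>
  force (msk c) fun mc =>
    and (allN 7 fun k => chkFlag f a n r S0 S1 S2 S3 S4 S5 S6 Z k)
    (and (allN 7 fun k => Nat.beq (Nat.add (byte c k) (byte a (Nat.sub 6 k))) 255)
    (and (or (Nat.beq f 0) (anyN 7 fun k => Nat.ble (Nat.succ (Nat.mod (ent n k) 8192)) f))
    (and (allN 7 fun k => sub ma (adj (byte a k)))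
    (and (allN 7 fun k => sub mc (adj (byte c k)))
    (and (sub ma US)
    (and (or (Nat.beq f 0) (anyN 11 fun i => sub ma (npm i)))
    (anyN 11 fun i => sub mc (npm i))))))))

/-- check of a block -/
def chkBlock (R f0 n : Nat) : Bool :=
  allN n fun i => force (Nat.add f0 i) fun f => chkFacet R i f

end

end Pool.Agent.Q134.RP6
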