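import Pool.Agent.Q134.RP6.Geo
import Pool.Agent.Q134.Fan.Proj

/-!
The fan of the triangulation.
-/

set_option autoImplicit false

namespace Pool.Agent.Q134.RP6

open Finset Pool.Agent.Q134.Fan

/-- facets -/
abbrev I := Fin 5096 × Bool

/-- the space -/
abbrev E := EuclideanSpace ℝ (Fin 7)

/-- vertex as a mask -/
noncomputable def mk (x : I) (k : Fin 7) : ℕ := V x.2.toNat x.1 k

theorem mk_lt (x : I) (k : Fin 7) : mk x k < 256 := V_lt _ _ _

theorem rev_val (k : Fin 7) : (k.rev : ℕ) = 6 - (k : ℕ) := by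
  rw [Fin.val_rev]
  omega

theorem mk_anti (f : Fin 5096) (b : Bool) (k : Fin 7) : mk (f, !b) k = 255 - mk (f, b) k.rev := by
  have h := (ok f.2).anti
  unfold mk
  have hk := k.2
  cases b
  · have h1 := h k hk
    rw [← rev_val] at h1
    change V 1 f k = 255 - V 0 f k.rev
    omega
  · have h1 := h k.rev k.rev.2
    have h2 : 6 - (k.rev : ℕ) = k := by
      rw [rev_val]
      omega
    rw [h2] at h1
    change V 0 f k = 255 - V 1 f k.rev
    omega

/-- entry of the table -/
noncomputable def ee (f : Fin 5096) (k : Fin 7) : I × Fin 7 :=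
  ((⟨gN f k, (ok f.2).g_lt k k.2⟩, decide (sN f k = 1)), ⟨kN f k, (ok f.2).k_lt k k.2⟩)

/-- the antipodal map -/
def tt (x : I × Fin 7) : I × Fin 7 := ((x.1.1, !x.1.2), x.2.rev)

theorem tt_tt (x : I × Fin 7) : tt (tt x) = x := by
  rcases x with ⟨⟨f, b⟩, k⟩
  simp [tt]

/-- neighbour across a ridge -/
noncomputable def nbr (x : I × Fin 7) : I × Fin 7 :=
  if x.1.2 then tt (ee x.1.1 x.2.rev) else ee x.1.1 x.2

theorem nbr_tt (x : I × Fin 7) : nbr (tt x) = tt (nbr x) := by
  rcases x with ⟨⟨f, b⟩, k⟩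
  cases b
  · simp [nbr, tt]
  · simp [nbr, tt]

theorem sN_lt (f k : ℕ) : sN f k < 2 := Nat.mod_lt _ (by norm_num)

theorem toNat_sN (f k : ℕ) : (decide (sN f k = 1)).toNat = sN f k := by
  have := sN_lt f k
  interval_cases h : sN f k <;> rfl

theorem nbr_ee (f : Fin 5096) (k : Fin 7) : nbr (ee f k) = ((f, false), k) := by
  have hf := f.2
  have hk := k.2
  have h := (ok hf).inv k hk
  have hs := sN_lt f k
  unfold nbr
  have h1 : ∀ g k' : ℕ, nbe g k' = gN g k' + 8192 * sN g k' + 16384 * kN g k' := by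
    intro g k'
    unfold gN sN kN
    omega
  have h2 : ∀ g k' : ℕ, gN g k' < 8192 := fun g k' => Nat.mod_lt _ (by norm_num)
  rcases Nat.lt_succ_iff_lt_or_eq.1 hs with h0 | h0
  · have h0 : sN f k = 0 := by omega
    have hb : (ee f k).1.2 = false := by
      change decide (sN f k = 1) = false
      rw [h0]
      rfl
    rw [if_neg (by rw [hb]; exact Bool.false_ne_true)]
    rw [h0] at h
    have h' : nbe (gN f k) (kN f k) = f + 16384 * k := h
    have h3 := h1 (gN f k) (kN f k)
    have h4 := h2 (gN f k) (kN f k)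
    have h5 := sN_lt (gN f k) (kN f k)
    have e1 : gN (gN f k) (kN f k) = f := by omega
    have e2 : sN (gN f k) (kN f k) = 0 := by omega
    have e3 : kN (gN f k) (kN f k) = k := by omega
    refine Prod.ext (Prod.ext (Fin.ext e1) ?_) (Fin.ext e3)
    change decide (sN (gN f k) (kN f k) = 1) = false
    rw [e2]
    rfl
  · have h0 : sN f k = 1 := by omega
    have hb : (ee f k).1.2 = true := by
      change decide (sN f k = 1) = true
      rw [h0]
      rfl
    rw [if_pos hb]
    rw [h0] at h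
    have h' : nbe (gN f k) (6 - kN f k) = f + (8192 + 16384 * (6 - k)) := h
    have h3 := h1 (gN f k) (6 - kN f k)
    have h4 := h2 (gN f k) (6 - kN f k)
    have h5 := sN_lt (gN f k) (6 - kN f k)
    have e1 : gN (gN f k) (6 - kN f k) = f := by omega
    have e2 : sN (gN f k) (6 - kN f k) = 1 := by omega
    have e3 : kN (gN f k) (6 - kN f k) = 6 - k := by omega
    have e4 : ((ee f k).2.rev : ℕ) = 6 - kN f k := rev_val _
    refine Prod.ext (Prod.ext (Fin.ext ?_) ?_) (Fin.ext ?_)
    · change gN (gN f k) ((ee f k).2.rev : ℕ) = f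
      rw [e4, e1]
    · change (!decide (sN (gN f k) ((ee f k).2.rev : ℕ) = 1)) = false
      rw [e4, e2]
      rfl
    · change ((ee (ee f k).1.1 (ee f k).2.rev).2.rev : ℕ) = k
      rw [rev_val]
      change 6 - kN (gN f k) ((ee f k).2.rev : ℕ) = k
      rw [e4, e3]
      omega

theorem nbr_nbr (x : I × Fin 7) : nbr (nbr x) = x := by
  rcases x with ⟨⟨f, b⟩, k⟩
  cases b
  · have h : nbr ((f, false), k) = ee f k := rfl
    rw [h, nbr_ee]
  · have h : ((f, true), k) = tt ((f, false), k.rev) := by simp [tt]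
    rw [h, nbr_tt, nbr_tt]
    have h : nbr ((f, false), k.rev) = ee f k.rev := rfl
    rw [h, nbr_ee]

theorem sa_val (k : Fin 7) (j : Fin 6) : ((k.succAbove j : Fin 7) : ℕ) = sa k j := by
  unfold sa
  rw [Fin.succAbove]
  split_ifs with h1 h2 h2
  · rfl
  · exact absurd h1 h2
  · exact absurd h2 h1
  · rfl

theorem mk_ridge (x : I × Fin 7) (j : Fin 6) :
    mk x.1 (x.2.succAbove j) = mk (nbr x).1 ((nbr x).2.succAbove j) := by
  have h0 : ∀ f k (j : Fin 6), mk (f, false) (k.succAbove j) = mk (ee f k).1 ((ee f k).2.succAbove j) := by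
    intro f k j
    have h := V_ridge f.2 k.2 j
    unfold mk
    rw [sa_val, sa_val]
    change V 0 f (sa k j) = V (decide (sN f k = 1)).toNat (gN f k) (sa (kN f k) j)
    rw [toNat_sN]
    exact h
  rcases x with ⟨⟨f, b⟩, k⟩
  cases b
  · exact h0 f k j
  · have h1 : nbr ((f, true), k) = tt (ee f k.rev) := rfl
    have h2 := h0 f k.rev j.rev
    rw [h1]
    have h3 : mk (f, true) (k.succAbove j) = 255 - mk (f, false) (k.succAbove j).rev :=
      mk_anti f false _
    have h4 : mk (tt (ee f k.rev)).1 ((tt (ee f k.rev)).2.succAbove j) =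
        255 - mk (ee f k.rev).1 (((ee f k.rev).2.rev.succAbove j).rev) :=
      mk_anti (ee f k.rev).1.1 (ee f k.rev).1.2 _
    rw [h4]
    change mk (f, true) (k.succAbove j) = _
    rw [h3, Fin.rev_succAbove, h2, Fin.rev_succAbove, Fin.rev_rev]

/-- vector -/
noncomputable def vv (x : I) (k : Fin 7) : E := uu (mk x k)

theorem vv_anti (f : Fin 5096) (b : Bool) (k : Fin 7) : vv (f, !b) k = -vv (f, b) k.rev := by
  unfold vv
  rw [mk_anti, uu_neg (mk_lt _ _)]

theorem vv_rel (x : I × Fin 7) : ∃ (a : Fin 7 → ℝ) (c : ℝ), 0 < a x.2 ∧ 0 < c ∧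
    ∑ i, a i • vv x.1 i + c • vv (nbr x).1 (nbr x).2 = 0 := by
  have h0 : ∀ f k, ∃ (a : Fin 7 → ℝ) (c : ℝ), 0 < a k ∧ 0 < c ∧
    ∑ i, a i • vv (f, false) i + c • vv (ee f k).1 (ee f k).2 = 0 := by
    intro f k
    obtain ⟨L, hL, h1, h2, h3⟩ := (ok f.2).rel k k.2
    have h4 := relc_of L hL
      (fun i => if i = 7 then V (sN f k) (gN f k) (kN f k) else V 0 f i)
      (fun i => by
        change (if i = 7 then V (sN f k) (gN f k) (kN f k) else V 0 f i) < 256
        split_ifs
        · exact V_lt _ _ _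
        · exact V_lt _ _ _) h3
    have h5 := uu_rel L _ h4
    refine ⟨fun i => (L i : ℝ) - 5, (L 7 : ℝ) - 5, ?_, ?_, ?_⟩
    · have : (6 : ℝ) ≤ L k := by exact_mod_cast h1
      change 0 < (L k : ℝ) - 5
      linarith
    · have : (6 : ℝ) ≤ L 7 := by exact_mod_cast h2
      linarith
    · have h6 : vv (ee f k).1 (ee f k).2 =
          uu (if (7 : ℕ) = 7 then V (sN f k) (gN f k) (kN f k) else V 0 f 7) := by
        rw [if_pos rfl]
        unfold vv mk
        change uu (V (decide (sN f k = 1)).toNat (gN f k) (kN f k)) = _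
        rw [toNat_sN]
      rw [h6, ← h5]
      congr 1
  rcases x with ⟨⟨f, b⟩, k⟩
  cases b
  · exact h0 f k
  · obtain ⟨a, c, ha, hc, h⟩ := h0 f k.rev
    refine ⟨fun i => a i.rev, c, ha, hc, ?_⟩
    have h1 : nbr ((f, true), k) = tt (ee f k.rev) := rfl
    rw [h1]
    have h2 : vv (tt (ee f k.rev)).1 (tt (ee f k.rev)).2 = -vv (ee f k.rev).1 (ee f k.rev).2 := by
      have := vv_anti (ee f k.rev).1.1 (ee f k.rev).1.2 (ee f k.rev).2.rev
      rw [Fin.rev_rev] at this
      exact this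
    have h3 : ∀ i, vv (f, true) i = -vv (f, false) i.rev := fun i => vv_anti f false i
    have h4 : ∑ i : Fin 7, a i.rev • vv (f, true) i = -∑ i : Fin 7, a i • vv (f, false) i := by
      rw [← Finset.sum_neg_distrib, ← Equiv.sum_comp Fin.revPerm]
      refine Finset.sum_congr rfl fun i _ => ?_
      rw [Fin.revPerm_apply, h3, Fin.rev_rev, smul_neg]
    change ∑ i : Fin 7, a i.rev • vv (f, true) i + _ = 0
    rw [h4, h2, smul_neg, ← neg_add, h, neg_zero]

theorem vv_ridge (x : I × Fin 7) (j : Fin 6) :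
    vv x.1 (x.2.succAbove j) = vv (nbr x).1 ((nbr x).2.succAbove j) := by
  unfold vv
  rw [mk_ridge]

theorem li_nbr (x : I × Fin 7) (h : LinearIndependent ℝ (vv (nbr x).1)) :
    LinearIndependent ℝ (vv x.1) := by
  obtain ⟨a, c, ha, hc, hrel⟩ := vv_rel x
  rw [Fintype.linearIndependent_iff] at h ⊢
  intro b hb
  rw [Fin.sum_univ_succAbove _ x.2] at hb hrel
  have h1 : ∑ i, ((nbr x).2.insertNth (α := fun _ => ℝ) (-(b x.2 * c))
      (fun j => a x.2 * b (x.2.succAbove j) - b x.2 * a (x.2.succAbove j)) i) • vv (nbr x).1 i = 0 := by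
    rw [Fin.sum_univ_succAbove _ (nbr x).2]
    simp only [Fin.insertNth_apply_same, Fin.insertNth_apply_succAbove]
    have h2 : ∑ j, (a x.2 * b (x.2.succAbove j) - b x.2 * a (x.2.succAbove j)) •
        vv (nbr x).1 ((nbr x).2.succAbove j) =
        a x.2 • ∑ j, b (x.2.succAbove j) • vv x.1 (x.2.succAbove j) -
          b x.2 • ∑ j, a (x.2.succAbove j) • vv x.1 (x.2.succAbove j) := by
      rw [Finset.smul_sum, Finset.smul_sum, ← Finset.sum_sub_distrib]
      refine Finset.sum_congr rfl fun j _ => ?_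
      rw [← vv_ridge, sub_smul, mul_smul, mul_smul]
    rw [h2]
    have h3 : ∑ j, b (x.2.succAbove j) • vv x.1 (x.2.succAbove j) = -(b x.2 • vv x.1 x.2) :=
      (neg_eq_of_add_eq_zero_right hb).symm
    have h4 : ∑ j, a (x.2.succAbove j) • vv x.1 (x.2.succAbove j) =
        -(a x.2 • vv x.1 x.2) - c • vv (nbr x).1 (nbr x).2 := by
      have h5 : ∑ j, a (x.2.succAbove j) • vv x.1 (x.2.succAbove j) =
        (a x.2 • vv x.1 x.2 + ∑ j, a (x.2.succAbove j) • vv x.1 (x.2.succAbove j) +
          c • vv (nbr x).1 (nbr x).2) - a x.2 • vv x.1 x.2 - c • vv (nbr x).1 (nbr x).2 := by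
        abel
      rw [h5, hrel]
      abel
    rw [h3, h4]
    module
  have h2 := h _ h1
  have h3 : b x.2 = 0 := by
    have h4 := h2 (nbr x).2
    rw [Fin.insertNth_apply_same] at h4
    have h5 : b x.2 * c = 0 := by linarith
    exact (mul_eq_zero.1 h5).resolve_right hc.ne'
  intro i
  rcases eq_or_ne i x.2 with h | h
  · rw [h, h3]
  · obtain ⟨j, rfl⟩ := Fin.exists_succAbove_eq h
    have h4 := h2 ((nbr x).2.succAbove j)
    rw [Fin.insertNth_apply_succAbove, h3, zero_mul, sub_zero] at h4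
    exact (mul_eq_zero.1 h4).resolve_left ha.ne'

theorem row0 : rowV 0 0 = 53820188665515777 := by decide +kernel

theorem V0 : V 0 0 0 = 1 ∧ V 0 0 1 = 15 ∧ V 0 0 2 = 39 ∧ V 0 0 3 = 43 ∧ V 0 0 4 = 45 ∧
    V 0 0 5 = 53 ∧ V 0 0 6 = 191 := by
  unfold V
  rw [row0]
  decide +kernel

theorem li_zero : LinearIndependent ℝ (vv (0, false)) := by
  rw [Fintype.linearIndependent_iff]
  intro b hb
  obtain ⟨h0, h1, h2, h3, h4, h5, h6⟩ := V0
  have e : ∀ j : Fin 7, b 0 * uu 1 j + b 1 * uu 15 j + b 2 * uu 39 j + b 3 * uu 43 j +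
      b 4 * uu 45 j + b 5 * uu 53 j + b 6 * uu 191 j = 0 := by
    intro j
    have h := congrArg (fun z : E => z j) hb
    simp only [Fin.sum_univ_seven, PiLp.add_apply, PiLp.smul_apply, PiLp.zero_apply,
      smul_eq_mul] at h
    have g0 : vv (0, false) 0 = uu 1 := congrArg uu h0
    have g1 : vv (0, false) 1 = uu 15 := congrArg uu h1
    have g2 : vv (0, false) 2 = uu 39 := congrArg uu h2
    have g3 : vv (0, false) 3 = uu 43 := congrArg uu h3
    have g4 : vv (0, false) 4 = uu 45 := congrArg uu h4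
    have g5 : vv (0, false) 5 = uu 53 := congrArg uu h5
    have g6 : vv (0, false) 6 = uu 191 := congrArg uu h6
    rw [g0, g1, g2, g3, g4, g5, g6] at h
    exact h
  have f0 := e 0
  have f1 := e 1
  have f2 := e 2
  have f3 := e 3
  have f4 := e 4
  have f5 := e 5
  have f6 := e 6
  simp only [uu_apply, dg] at f0 f1 f2 f3 f4 f5 f6
  norm_num at f0 f1 f2 f3 f4 f5 f6
  have k0 : b 0 = 0 := by linarith
  have k1 : b 1 = 0 := by linarith
  have k2 : b 2 = 0 := by linarith
  have k3 : b 3 = 0 := by linarith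
  have k4 : b 4 = 0 := by linarith
  have k5 : b 5 = 0 := by linarith
  have k6 : b 6 = 0 := by linarith
  intro i
  fin_cases i
  exacts [k0, k1, k2, k3, k4, k5, k6]

theorem li_anti (f : Fin 5096) (b : Bool) (h : LinearIndependent ℝ (vv (f, b))) :
    LinearIndependent ℝ (vv (f, !b)) := by
  have h1 : vv (f, !b) = fun k => -(vv (f, b) ∘ Fin.rev) k := by
    funext k
    exact vv_anti f b k
  rw [h1]
  have h2 : LinearIndependent ℝ (vv (f, b) ∘ Fin.rev) := h.comp _ Fin.rev_injective
  rw [Fintype.linearIndependent_iff] at h2 ⊢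
  intro g hg i
  apply h2 g _ i
  rw [← neg_eq_zero, ← hg, ← Finset.sum_neg_distrib]
  refine Finset.sum_congr rfl fun k _ => ?_
  rw [smul_neg]

theorem li_all : ∀ (n : ℕ) (f : Fin 5096), (f : ℕ) = n → ∀ b, LinearIndependent ℝ (vv (f, b)) := by
  intro n
  induction n using Nat.strong_induction_on with
  | _ n ih =>
    intro f hf
    have h0 : LinearIndependent ℝ (vv (f, false)) := by
      rcases (ok f.2).par with h | ⟨k, hk, h⟩
      · have h1 : f = 0 := Fin.ext h
        rw [h1]
        exact li_zero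
      · apply li_nbr ((f, false), ⟨k, hk⟩)
        have h1 : nbr ((f, false), ⟨k, hk⟩) = ee f ⟨k, hk⟩ := rfl
        rw [h1]
        exact ih (gN f k) (by omega) _ rfl _
    intro b
    cases b
    · exact h0
    · exact li_anti f false h0

theorem li (x : I) : LinearIndependent ℝ (vv x) := li_all _ x.1 rfl x.2

end Pool.Agent.Q134.RP6
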