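import Pool.Agent.Q134.RP6.Spec

/-!
The vertices as vectors and the relations at the ridges.
-/

set_option autoImplicit false

namespace Pool.Agent.Q134.RP6

open Finset

/-- skipping `k` -/
def sa (k j : ℕ) : ℕ := if j < k then j else j + 1

theorem byte_rem (a k j : ℕ) : byte (rem a k) j = byte a (sa k j) := by
  have hb : ∀ a k, byte a k = a / 2 ^ (8 * k) % 256 := by
    intro a k
    unfold byte
    rw [shr]
    rfl
  have hr : rem a k = a % 2 ^ (8 * k) + a / 2 ^ (8 * k + 8) * 2 ^ (8 * k) := by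
    unfold rem
    rw [shr]
    rfl
  rw [hb, hb, hr]
  unfold sa
  split_ifs with h
  · have h1 : ∀ x : ℕ, x / 2 ^ (8 * j) % 256 = x % (2 ^ (8 * j) * 256) / 2 ^ (8 * j) := by
      intro x
      rw [Nat.mod_mul_right_div_self]
    rw [h1, h1]
    congr 1
    have h2 : (2 : ℕ) ^ (8 * j) * 256 ∣ 2 ^ (8 * k) := by
      have h3 : (2 : ℕ) ^ (8 * j) * 256 = 2 ^ (8 * j + 8) := by
        rw [pow_add]
        norm_num
      rw [h3]
      exact pow_dvd_pow 2 (by omega)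
    rw [Nat.add_mod, Nat.mod_mod_of_dvd _ h2, Nat.mod_eq_zero_of_dvd (Dvd.dvd.mul_left h2 _), add_zero,
      Nat.mod_mod]
  · have h1 : 8 * j = 8 * k + 8 * (j - k) := by omega
    have h2 : 8 * (j + 1) = 8 * k + 8 + 8 * (j - k) := by omega
    have h3 : (a % 2 ^ (8 * k) + a / 2 ^ (8 * k + 8) * 2 ^ (8 * k)) / 2 ^ (8 * k) =
        a / 2 ^ (8 * k + 8) := by
      rw [Nat.add_mul_div_right _ _ (by positivity : 0 < 2 ^ (8 * k)),
        Nat.div_eq_of_lt (Nat.mod_lt _ (by positivity)), zero_add]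
    rw [h2, h1, pow_add 2 (8 * k) (8 * (j - k)), ← Nat.div_div_eq_div_mul, h3,
      pow_add 2 (8 * k + 8) (8 * (j - k)), ← Nat.div_div_eq_div_mul]

theorem V_lt (s f k : ℕ) : V s f k < 256 := Nat.mod_lt _ (by norm_num)

theorem V_ridge {f k : ℕ} (hf : f < 5096) (hk : k < 7) (j : ℕ) :
    V 0 f (sa k j) = V (sN f k) (gN f k) (sa (kN f k) j) := by
  have h := (ok hf).ridge k hk
  have h1 := byte_rem (rowV 0 f) k j
  have h2 := byte_rem (rowV (sN f k) (gN f k)) (kN f k) j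
  rw [h, h2] at h1
  exact h1.symm

theorem msk_testBit (a k : ℕ) (hk : k < 7) : (msk a).testBit (byte a k) = true := by
  have h1 : ∀ b : ℕ, (Nat.shiftLeft 1 b).testBit b = true := by
    intro b
    change ((1 : ℕ) <<< b).testBit b = true
    rw [Nat.one_shiftLeft, Nat.testBit_two_pow_self]
  have h2 : ∀ x y b : ℕ, (Nat.lor x y).testBit b = (x.testBit b || y.testBit b) := by
    intro x y b
    exact Nat.testBit_lor x y b
  unfold msk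
  simp only [h2]
  interval_cases k <;> simp only [h1, Bool.true_or, Bool.or_true]

theorem sub_testBit {m x b : ℕ} (h : sub m x = true) (hb : m.testBit b = true) :
    x.testBit b = true := by
  have h1 : m &&& x = m := Nat.eq_of_beq_eq_true h
  have h2 : (m &&& x).testBit b = true := by rw [h1]; exact hb
  rw [Nat.testBit_land, Bool.and_eq_true] at h2
  exact h2.2

/-- coordinate plus one -/
def dg (m j : ℕ) : ℕ := m / 2 ^ j % 2 + 1 - m / 128 % 2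

theorem dg_le (m j : ℕ) : dg m j ≤ 2 := by
  unfold dg
  omega

theorem SS_eq_aux : ∀ m : Fin 256, SS m = dg m 0 + dg m 1 * 1024 + dg m 2 * 1048576 +
    dg m 3 * 1073741824 + dg m 4 * 1099511627776 + dg m 5 * 1125899906842624 +
    dg m 6 * 1152921504606846976 := by
  decide +kernel

theorem SS_eq {m : ℕ} (hm : m < 256) : SS m = dg m 0 + dg m 1 * 1024 + dg m 2 * 1048576 +
    dg m 3 * 1073741824 + dg m 4 * 1099511627776 + dg m 5 * 1125899906842624 +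
    dg m 6 * 1152921504606846976 := SS_eq_aux ⟨m, hm⟩

theorem TT_eq : TT = 1 + 1024 + 1048576 + 1073741824 + 1099511627776 + 1125899906842624 +
    1152921504606846976 := by
  norm_num [TT]

/-- uniqueness of digits -/
theorem digits {a0 a1 a2 a3 a4 a5 a6 b0 b1 b2 b3 b4 b5 b6 : ℕ}
    (ha0 : a0 < 1024) (ha1 : a1 < 1024) (ha2 : a2 < 1024) (ha3 : a3 < 1024) (ha4 : a4 < 1024)
    (ha5 : a5 < 1024) (_ : a6 < 1024)
    (hb0 : b0 < 1024) (hb1 : b1 < 1024) (hb2 : b2 < 1024) (hb3 : b3 < 1024) (hb4 : b4 < 1024)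
    (hb5 : b5 < 1024) (hb6 : b6 < 1024)
    (h : a0 + a1 * 1024 + a2 * 1048576 + a3 * 1073741824 + a4 * 1099511627776 +
      a5 * 1125899906842624 + a6 * 1152921504606846976 =
      b0 + b1 * 1024 + b2 * 1048576 + b3 * 1073741824 + b4 * 1099511627776 +
      b5 * 1125899906842624 + b6 * 1152921504606846976) :
    a0 = b0 ∧ a1 = b1 ∧ a2 = b2 ∧ a3 = b3 ∧ a4 = b4 ∧ a5 = b5 ∧ a6 = b6 := by
  have e0 : a0 = b0 := by omega
  subst e0
  have e1 : a1 = b1 := by omega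
  subst e1
  have e2 : a2 = b2 := by omega
  subst e2
  have e3 : a3 = b3 := by omega
  subst e3
  have e4 : a4 = b4 := by omega
  subst e4
  have e5 : a5 = b5 := by omega
  subst e5
  have e6 : a6 = b6 := by omega
  subst e6
  exact ⟨rfl, rfl, rfl, rfl, rfl, rfl, rfl⟩

/-- the relation of one coordinate -/
def relc (L : ℕ → ℕ) (d : ℕ → ℕ) : Prop :=
  L 0 * d 0 + L 1 * d 1 + L 2 * d 2 + L 3 * d 3 + L 4 * d 4 + L 5 * d 5 + L 6 * d 6 + L 7 * d 7 + 40 =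
    (L 0 + L 1 + L 2 + L 3 + L 4 + L 5 + L 6 + L 7) +
      5 * (d 0 + d 1 + d 2 + d 3 + d 4 + d 5 + d 6 + d 7)

theorem relc_of (L : ℕ → ℕ) (hL : ∀ i, L i < 16) (m : ℕ → ℕ) (hm : ∀ i, m i < 256)
    (h : L 0 * SS (m 0) + (L 1 * SS (m 1) + (L 2 * SS (m 2) + (L 3 * SS (m 3) +
    (L 4 * SS (m 4) + (L 5 * SS (m 5) + (L 6 * SS (m 6) +
    (L 7 * SS (m 7) + 40 * TT))))))) =
    TT * (L 0 + (L 1 + (L 2 + (L 3 + (L 4 + (L 5 + (L 6 + L 7))))))) +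
    5 * ((SS (m 0) + (SS (m 1) + (SS (m 2) + (SS (m 3) + (SS (m 4) +
      (SS (m 5) + SS (m 6))))))) + SS (m 7))) :
    ∀ j, j < 7 → relc L fun i => dg (m i) j := by
  have hb : ∀ i j, L i * dg (m i) j ≤ 30 := fun i j =>
    (Nat.mul_le_mul (Nat.le_of_lt_succ (hL i)) (dg_le (m i) j)).trans (by norm_num)
  have hd : ∀ i j, dg (m i) j ≤ 2 := fun i j => dg_le (m i) j
  simp only [SS_eq (hm _), TT_eq] at h
  have key := @digits
    (L 0 * dg (m 0) 0 + L 1 * dg (m 1) 0 + L 2 * dg (m 2) 0 + L 3 * dg (m 3) 0 + L 4 * dg (m 4) 0 +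
      L 5 * dg (m 5) 0 + L 6 * dg (m 6) 0 + L 7 * dg (m 7) 0 + 40)
    (L 0 * dg (m 0) 1 + L 1 * dg (m 1) 1 + L 2 * dg (m 2) 1 + L 3 * dg (m 3) 1 + L 4 * dg (m 4) 1 +
      L 5 * dg (m 5) 1 + L 6 * dg (m 6) 1 + L 7 * dg (m 7) 1 + 40)
    (L 0 * dg (m 0) 2 + L 1 * dg (m 1) 2 + L 2 * dg (m 2) 2 + L 3 * dg (m 3) 2 + L 4 * dg (m 4) 2 +
      L 5 * dg (m 5) 2 + L 6 * dg (m 6) 2 + L 7 * dg (m 7) 2 + 40)
    (L 0 * dg (m 0) 3 + L 1 * dg (m 1) 3 + L 2 * dg (m 2) 3 + L 3 * dg (m 3) 3 + L 4 * dg (m 4) 3 +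
      L 5 * dg (m 5) 3 + L 6 * dg (m 6) 3 + L 7 * dg (m 7) 3 + 40)
    (L 0 * dg (m 0) 4 + L 1 * dg (m 1) 4 + L 2 * dg (m 2) 4 + L 3 * dg (m 3) 4 + L 4 * dg (m 4) 4 +
      L 5 * dg (m 5) 4 + L 6 * dg (m 6) 4 + L 7 * dg (m 7) 4 + 40)
    (L 0 * dg (m 0) 5 + L 1 * dg (m 1) 5 + L 2 * dg (m 2) 5 + L 3 * dg (m 3) 5 + L 4 * dg (m 4) 5 +
      L 5 * dg (m 5) 5 + L 6 * dg (m 6) 5 + L 7 * dg (m 7) 5 + 40)
    (L 0 * dg (m 0) 6 + L 1 * dg (m 1) 6 + L 2 * dg (m 2) 6 + L 3 * dg (m 3) 6 + L 4 * dg (m 4) 6 +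
      L 5 * dg (m 5) 6 + L 6 * dg (m 6) 6 + L 7 * dg (m 7) 6 + 40)
    ((L 0 + L 1 + L 2 + L 3 + L 4 + L 5 + L 6 + L 7) +
      5 * (dg (m 0) 0 + dg (m 1) 0 + dg (m 2) 0 + dg (m 3) 0 + dg (m 4) 0 + dg (m 5) 0 +
        dg (m 6) 0 + dg (m 7) 0))
    ((L 0 + L 1 + L 2 + L 3 + L 4 + L 5 + L 6 + L 7) +
      5 * (dg (m 0) 1 + dg (m 1) 1 + dg (m 2) 1 + dg (m 3) 1 + dg (m 4) 1 + dg (m 5) 1 +
        dg (m 6) 1 + dg (m 7) 1))
    ((L 0 + L 1 + L 2 + L 3 + L 4 + L 5 + L 6 + L 7) +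
      5 * (dg (m 0) 2 + dg (m 1) 2 + dg (m 2) 2 + dg (m 3) 2 + dg (m 4) 2 + dg (m 5) 2 +
        dg (m 6) 2 + dg (m 7) 2))
    ((L 0 + L 1 + L 2 + L 3 + L 4 + L 5 + L 6 + L 7) +
      5 * (dg (m 0) 3 + dg (m 1) 3 + dg (m 2) 3 + dg (m 3) 3 + dg (m 4) 3 + dg (m 5) 3 +
        dg (m 6) 3 + dg (m 7) 3))
    ((L 0 + L 1 + L 2 + L 3 + L 4 + L 5 + L 6 + L 7) +
      5 * (dg (m 0) 4 + dg (m 1) 4 + dg (m 2) 4 + dg (m 3) 4 + dg (m 4) 4 + dg (m 5) 4 +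
        dg (m 6) 4 + dg (m 7) 4))
    ((L 0 + L 1 + L 2 + L 3 + L 4 + L 5 + L 6 + L 7) +
      5 * (dg (m 0) 5 + dg (m 1) 5 + dg (m 2) 5 + dg (m 3) 5 + dg (m 4) 5 + dg (m 5) 5 +
        dg (m 6) 5 + dg (m 7) 5))
    ((L 0 + L 1 + L 2 + L 3 + L 4 + L 5 + L 6 + L 7) +
      5 * (dg (m 0) 6 + dg (m 1) 6 + dg (m 2) 6 + dg (m 3) 6 + dg (m 4) 6 + dg (m 5) 6 +
        dg (m 6) 6 + dg (m 7) 6))
  have bl : ∀ j, L 0 * dg (m 0) j + L 1 * dg (m 1) j + L 2 * dg (m 2) j + L 3 * dg (m 3) j +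
      L 4 * dg (m 4) j + L 5 * dg (m 5) j + L 6 * dg (m 6) j + L 7 * dg (m 7) j + 40 < 1024 := by
    intro j
    have := hb 0 j
    have := hb 1 j
    have := hb 2 j
    have := hb 3 j
    have := hb 4 j
    have := hb 5 j
    have := hb 6 j
    have := hb 7 j
    omega
  have br : ∀ j, (L 0 + L 1 + L 2 + L 3 + L 4 + L 5 + L 6 + L 7) +
      5 * (dg (m 0) j + dg (m 1) j + dg (m 2) j + dg (m 3) j + dg (m 4) j + dg (m 5) j +
        dg (m 6) j + dg (m 7) j) < 1024 := by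
    intro j
    have := hL 0
    have := hL 1
    have := hL 2
    have := hL 3
    have := hL 4
    have := hL 5
    have := hL 6
    have := hL 7
    have := hd 0 j
    have := hd 1 j
    have := hd 2 j
    have := hd 3 j
    have := hd 4 j
    have := hd 5 j
    have := hd 6 j
    have := hd 7 j
    omega
  obtain ⟨h0, h1, h2, h3, h4, h5, h6⟩ := key (bl 0) (bl 1) (bl 2) (bl 3) (bl 4) (bl 5) (bl 6)
    (br 0) (br 1) (br 2) (br 3) (br 4) (br 5) (br 6) (by linarith)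
  intro j hj
  unfold relc
  interval_cases j
  exacts [h0, h1, h2, h3, h4, h5, h6]

/-- the vector of a vertex -/
noncomputable def uu (m : ℕ) : EuclideanSpace ℝ (Fin 7) :=
  WithLp.toLp 2 fun j : Fin 7 => (dg m j : ℝ) - 1

theorem uu_apply (m : ℕ) (j : Fin 7) : uu m j = (dg m j : ℝ) - 1 := rfl

theorem uu_neg {m : ℕ} (hm : m < 256) : uu (255 - m) = -uu m := by
  ext j
  rw [PiLp.neg_apply, uu_apply, uu_apply]
  have h : dg (255 - m) j + dg m j = 2 := by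
    have : ∀ m : Fin 256, ∀ j : Fin 7, dg (255 - m) j + dg m j = 2 := by decide +kernel
    exact this ⟨m, hm⟩ j
  have h' : (dg (255 - m) j : ℝ) + (dg m j : ℝ) = 2 := by exact_mod_cast h
  linarith

theorem uu_rel (L : ℕ → ℕ) (m : ℕ → ℕ) (h : ∀ j, j < 7 → relc L fun i => dg (m i) j) :
    ∑ i : Fin 7, ((L i : ℝ) - 5) • uu (m i) + ((L 7 : ℝ) - 5) • uu (m 7) = 0 := by
  ext j
  have h1 := h j j.2
  unfold relc at h1
  have h2 := congrArg (Nat.cast : ℕ → ℝ) h1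
  push_cast at h2
  simp only [PiLp.add_apply, PiLp.smul_apply, PiLp.zero_apply, smul_eq_mul, uu_apply,
    Fin.sum_univ_seven]
  simp only [Fin.val_zero, Fin.val_one, Fin.val_two]
  change _ + ((L 3 : ℝ) - 5) * ((dg (m 3) j : ℝ) - 1) + ((L 4 : ℝ) - 5) * ((dg (m 4) j : ℝ) - 1) +
    ((L 5 : ℝ) - 5) * ((dg (m 5) j : ℝ) - 1) + ((L 6 : ℝ) - 5) * ((dg (m 6) j : ℝ) - 1) + _ = _
  linarith

end Pool.Agent.Q134.RP6
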