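import Pool.Agent.Q134.RP6.Fan

/-!
The fan data, the separation property and the symmetry.
-/

set_option autoImplicit false

namespace Pool.Agent.Q134.RP6

open Finset Pool.Agent.Q134.Fan

/-- class and sign of a mask -/
def ph (m : ℕ) : Fin 128 × Bool :=
  if m < 128 then (Fin.ofNat 128 m, true) else (Fin.ofNat 128 (255 - m), false)

/-- the vectors -/
noncomputable def uf (v : Fin 128 × Bool) : E := if v.2 then uu v.1 else -uu v.1

theorem ph_neg {m : ℕ} (hm : m < 256) : ph (255 - m) = ((ph m).1, !(ph m).2) := by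
  have : ∀ m : Fin 256, ph (255 - m) = ((ph m).1, !(ph m).2) := by decide +kernel
  exact this ⟨m, hm⟩

theorem ph_inj {m m' : ℕ} (hm : m < 256) (hm' : m' < 256) (h : ph m = ph m') : m = m' := by
  have h1 : ∀ m : Fin 256, (if (ph m).2 then ((ph m).1 : ℕ) else 255 - (ph m).1) = m := by
    decide +kernel
  have h2 := h1 ⟨m, hm⟩
  have h3 := h1 ⟨m', hm'⟩
  change (if (ph m).2 then ((ph m).1 : ℕ) else 255 - (ph m).1) = m at h2
  change (if (ph m').2 then ((ph m').1 : ℕ) else 255 - (ph m').1) = m' at h3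
  rw [h] at h2
  rw [← h2, h3]

theorem uf_ph {m : ℕ} (hm : m < 256) : uf (ph m) = uu m := by
  unfold uf ph
  by_cases h1 : m < 128
  · rw [if_pos h1, if_pos rfl]
    have : (Fin.ofNat 128 m : Fin 128).val = m := Nat.mod_eq_of_lt h1
    rw [this]
  · rw [if_neg h1, if_neg Bool.false_ne_true]
    have : (Fin.ofNat 128 (255 - m) : Fin 128).val = 255 - m := Nat.mod_eq_of_lt (by omega)
    rw [this, uu_neg hm, neg_neg]

theorem uf_neg (i : Fin 128) (s : Bool) : uf (i, !s) = -uf (i, s) := by
  cases s <;> simp [uf]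

/-- the vertices of the facets -/
noncomputable def vt (x : I) (k : Fin 7) : Fin 128 × Bool := ph (mk x k)

theorem uf_vt (x : I) (k : Fin 7) : uf (vt x k) = vv x k := uf_ph (mk_lt x k)

/-- the basis of a cone -/
noncomputable def bas (x : I) : Module.Basis (Fin 7) ℝ E :=
  basisOfLinearIndependentOfCardEqFinrank (li x) (by simp)

theorem bas_apply (x : I) (k : Fin 7) : bas x k = vv x k := by
  unfold bas
  rw [coe_basisOfLinearIndependentOfCardEqFinrank]

/-- the fan -/
noncomputable def DD : FanData E (Fin 128 × Bool) I 6 where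
  u := uf
  vtx := vt
  inj := by
    intro x k l h
    apply (li x).injective
    rw [← uf_vt, ← uf_vt, h]
  c := fun x k => (bas x).coord k
  dual := by
    intro x k l
    rw [uf_vt, ← bas_apply, Module.Basis.coord_apply, Module.Basis.repr_self,
      Finsupp.single_apply]
    simp only [eq_comm]
  span := by
    intro x y
    have h := (bas x).sum_repr y
    conv_rhs => rw [← h]
    refine Finset.sum_congr rfl fun k _ => ?_
    rw [uf_vt, bas_apply, Module.Basis.coord_apply]
  nb := nbr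
  nb_nb := nbr_nbr
  ridge := by
    intro x k j
    unfold vt
    rw [mk_ridge (x, k) j]
  side := by
    intro x k
    obtain ⟨a, c, ha, hc, h⟩ := vv_rel (x, k)
    rw [uf_vt]
    have h1 := congrArg ((bas x).coord k) h
    rw [map_add, map_sum, map_smul, map_zero, Finset.sum_eq_single k] at h1
    · rw [map_smul, ← bas_apply, Module.Basis.coord_apply, Module.Basis.repr_self,
        Finsupp.single_eq_same] at h1
      simp only [smul_eq_mul, mul_one] at h1
      have ha' : 0 < a k := ha
      by_contra hcon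
      have h2 := mul_nonneg hc.le (not_lt.1 hcon)
      linarith
    · intro l _ hl
      rw [map_smul, ← bas_apply, Module.Basis.coord_apply, Module.Basis.repr_self,
        Finsupp.single_eq_of_ne hl.symm, smul_zero]
    · intro h; exact absurd (mem_univ k) h

/-- coefficients of the separating functionals -/
def lam (i j : ℕ) : ℤ :=
  match i, j with
  | 0, 1 => -2
  | 0, 5 => 2
  | 1, 1 => 1
  | 1, 4 => -1
  | 2, 0 => 1
  | 2, 5 => -1
  | 3, 4 => 1
  | 4, 6 => -2
  | 5, 2 => 1
  | 5, 3 => -1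
  | 6, 1 => 1
  | 6, 2 => -2
  | 6, 3 => 1
  | 6, 4 => -1
  | 6, 5 => 1
  | 7, 0 => -2
  | 7, 1 => -2
  | 7, 2 => 2
  | 7, 3 => 2
  | 7, 4 => -2
  | 7, 5 => 2
  | 8, 0 => 2
  | 8, 1 => -1
  | 8, 2 => -1
  | 8, 3 => -1
  | 8, 4 => -1
  | 9, 1 => 1
  | 9, 2 => 1
  | 9, 3 => 1
  | 9, 5 => -2
  | 9, 6 => 1
  | 10, 0 => -2
  | 10, 1 => 2
  | 10, 2 => 2
  | 10, 3 => -2
  | 10, 4 => -2
  | 10, 5 => 2
  | _, _ => 0

/-- value of a functional -/
def li7 (i m : ℕ) : ℤ :=
  lam i 0 * ((dg m 0 : ℤ) - 1) + lam i 1 * ((dg m 1 : ℤ) - 1) + lam i 2 * ((dg m 2 : ℤ) - 1) +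
    lam i 3 * ((dg m 3 : ℤ) - 1) + lam i 4 * ((dg m 4 : ℤ) - 1) + lam i 5 * ((dg m 5 : ℤ) - 1) +
    lam i 6 * ((dg m 6 : ℤ) - 1)

theorem li7_nonpos : ∀ i : Fin 11, ∀ m : Fin 256, (npm i).testBit m = true → li7 i m ≤ 0 := by
  decide +kernel

theorem li7_pos : ∀ i : Fin 11, 0 < li7 i 1 + li7 i 15 + li7 i 39 + li7 i 43 + li7 i 45 +
    li7 i 53 + li7 i 191 := by
  decide +kernel

/-- the functional -/
noncomputable def lR (i : ℕ) : E →ₗ[ℝ] ℝ :=
  ∑ j : Fin 7, (lam i j : ℝ) • (EuclideanSpace.proj j : E →L[ℝ] ℝ).toLinearMap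

theorem lR_uu (i m : ℕ) : lR i (uu m) = (li7 i m : ℝ) := by
  unfold lR li7
  rw [LinearMap.sum_apply, Fin.sum_univ_seven]
  push_cast
  rfl

theorem sep : DD.Sep := by
  refine ⟨((0, false) : I), ∑ k, vv (0, false) k, ?_, ?_⟩
  · intro k
    change 0 < (bas (0, false)).coord k _
    rw [map_sum, Finset.sum_eq_single k]
    · rw [← bas_apply, Module.Basis.coord_apply, Module.Basis.repr_self, Finsupp.single_eq_same]
      exact one_pos
    · intro l _ hl
      rw [← bas_apply, Module.Basis.coord_apply, Module.Basis.repr_self,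
        Finsupp.single_eq_of_ne hl.symm]
    · intro h; exact absurd (mem_univ k) h
  · intro x hx
    have key : ∃ i, i < 11 ∧ sub (msk (rowV x.2.toNat x.1)) (npm i) = true := by
      rcases x with ⟨f, b⟩
      cases b
      · rcases (ok f.2).sep0 with h | h
        · have h1 : f = 0 := Fin.ext h
          exact absurd (by rw [h1]) hx
        · exact h
      · exact (ok f.2).sep1
    obtain ⟨i, hi, h⟩ := key
    refine ⟨lR i, ?_, ?_⟩
    · rw [map_sum, Fin.sum_univ_seven]
      obtain ⟨h0, h1, h2, h3, h4, h5, h6⟩ := V0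
      have g0 : vv (0, false) 0 = uu 1 := congrArg uu h0
      have g1 : vv (0, false) 1 = uu 15 := congrArg uu h1
      have g2 : vv (0, false) 2 = uu 39 := congrArg uu h2
      have g3 : vv (0, false) 3 = uu 43 := congrArg uu h3
      have g4 : vv (0, false) 4 = uu 45 := congrArg uu h4
      have g5 : vv (0, false) 5 = uu 53 := congrArg uu h5
      have g6 : vv (0, false) 6 = uu 191 := congrArg uu h6
      rw [g0, g1, g2, g3, g4, g5, g6]
      simp only [lR_uu]
      have := li7_pos ⟨i, hi⟩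
      exact_mod_cast this
    · intro k
      change lR i (uf (vt x k)) ≤ 0
      rw [uf_vt]
      unfold vv
      rw [lR_uu]
      have h1 : (npm i).testBit (mk x k) = true := sub_testBit h (msk_testBit _ _ k.2)
      have := li7_nonpos ⟨i, hi⟩ ⟨mk x k, mk_lt x k⟩ h1
      exact_mod_cast this

theorem adj_anti : ∀ a : Fin 256, ∀ c : Fin 256,
    ((adj a).testBit c && (adj a).testBit (255 - c)) = false := by
  decide +kernel

theorem adj_mk (x : I) (k l : Fin 7) : (adj (mk x k)).testBit (mk x l) = true := by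
  have h : sub (msk (rowV x.2.toNat x.1)) (adj (mk x k)) = true := by
    rcases x with ⟨f, b⟩
    cases b
    · exact (ok f.2).adj0 k k.2
    · exact (ok f.2).adj1 k k.2
  exact sub_testBit h (msk_testBit _ _ l.2)

theorem antip : Antip DD where
  u_neg := uf_neg
  anti := by
    rintro ⟨f, b⟩
    refine ⟨((f, !b) : I), fun k => ?_⟩
    change ph (mk (f, !b) k) = ((ph (mk (f, b) k.rev)).1, !(ph (mk (f, b) k.rev)).2)
    rw [mk_anti, ph_neg (mk_lt _ _)]
  nobad := by
    intro f g k l k' l' _ h1 h2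
    have e1 : mk g k' = mk f k := ph_inj (mk_lt _ _) (mk_lt _ _) h1
    have e2 : mk g l' = 255 - mk f l := by
      apply ph_inj (mk_lt _ _) (by omega)
      rw [ph_neg (mk_lt _ _)]
      exact h2
    have h3 := adj_mk f k l
    have h4 := adj_mk g k' l'
    rw [e1, e2] at h4
    have h5 := adj_anti ⟨mk f k, mk_lt _ _⟩ ⟨mk f l, mk_lt _ _⟩
    change ((adj (mk f k)).testBit (mk f l) && (adj (mk f k)).testBit (255 - mk f l)) = false at h5
    rw [h3, h4] at h5
    exact absurd h5 (by decide)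

end Pool.Agent.Q134.RP6
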