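import Mathlib
import Pool.Agent.Q134.RP6.C0
import Pool.Agent.Q134.RP6.C1
import Pool.Agent.Q134.RP6.C2
import Pool.Agent.Q134.RP6.C3
import Pool.Agent.Q134.RP6.C4
import Pool.Agent.Q134.RP6.C5
import Pool.Agent.Q134.RP6.C6
import Pool.Agent.Q134.RP6.C7

/-!
What the Boolean checks say.
-/

set_option autoImplicit false

namespace Pool.Agent.Q134.RP6

/-- entry of the table of neighbours -/
noncomputable def nbe (f k : ℕ) : ℕ := ent (row NB 140 f) k

/-- index of the neighbour -/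
noncomputable def gN (f k : ℕ) : ℕ := nbe f k % 8192

/-- sign of the neighbour -/
noncomputable def sN (f k : ℕ) : ℕ := nbe f k / 8192 % 2

/-- position of the new vertex in the neighbour -/
noncomputable def kN (f k : ℕ) : ℕ := nbe f k / 16384

/-- vertex `k` of the facet `(f, s)` -/
noncomputable def V (s f k : ℕ) : ℕ := byte (rowV s f) k

/-- the properties which are checked for every facet -/
structure OK (f : ℕ) : Prop where
  g_lt : ∀ k, k < 7 → gN f k < 5096
  k_lt : ∀ k, k < 7 → kN f k < 7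
  inv : ∀ k, k < 7 → nbe (gN f k) (ch (sN f k) (kN f k) (6 - kN f k)) =
    ch (sN f k) (f + 16384 * k) (f + (8192 + 16384 * (6 - k)))
  ridge : ∀ k, k < 7 → rem (rowV 0 f) k = rem (rowV (sN f k) (gN f k)) (kN f k)
  rel : ∀ k, k < 7 → ∃ L : ℕ → ℕ, (∀ i, L i < 16) ∧ 6 ≤ L k ∧ 6 ≤ L 7 ∧
    L 0 * SS (V 0 f 0) + (L 1 * SS (V 0 f 1) + (L 2 * SS (V 0 f 2) + (L 3 * SS (V 0 f 3) +
    (L 4 * SS (V 0 f 4) + (L 5 * SS (V 0 f 5) + (L 6 * SS (V 0 f 6) +
    (L 7 * SS (V (sN f k) (gN f k) (kN f k)) + 40 * TT))))))) =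
    TT * (L 0 + (L 1 + (L 2 + (L 3 + (L 4 + (L 5 + (L 6 + L 7))))))) +
    5 * ((SS (V 0 f 0) + (SS (V 0 f 1) + (SS (V 0 f 2) + (SS (V 0 f 3) + (SS (V 0 f 4) +
      (SS (V 0 f 5) + SS (V 0 f 6))))))) + SS (V (sN f k) (gN f k) (kN f k)))
  anti : ∀ k, k < 7 → V 1 f k + V 0 f (6 - k) = 255
  par : f = 0 ∨ ∃ k, k < 7 ∧ gN f k < f
  adj0 : ∀ k, k < 7 → sub (msk (rowV 0 f)) (adj (V 0 f k)) = true
  adj1 : ∀ k, k < 7 → sub (msk (rowV 1 f)) (adj (V 1 f k)) = true
  used : sub (msk (rowV 0 f)) US = true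
  sep0 : f = 0 ∨ ∃ i, i < 11 ∧ sub (msk (rowV 0 f)) (npm i) = true
  sep1 : ∃ i, i < 11 ∧ sub (msk (rowV 1 f)) (npm i) = true

theorem shr (x n : ℕ) : Nat.shiftRight x n = x / 2 ^ n := Nat.shiftRight_eq_div_pow x n

theorem nib_lt (t i : ℕ) : nib t i < 16 := Nat.mod_lt _ (by norm_num)

theorem ok_of_chk {R i f : ℕ} (h : chkFacet R i f = true) : OK f := by
  unfold chkFacet at h
  simp only [force_eq] at h
  have e0 : row FB 56 f = rowV 0 f := rfl
  have e1 : row FN 56 f = rowV 1 f := rfl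
  rw [e0, e1] at h
  rw [Bool.and_eq_true, Bool.and_eq_true, Bool.and_eq_true, Bool.and_eq_true, Bool.and_eq_true,
    Bool.and_eq_true, Bool.and_eq_true, allN_iff, allN_iff, allN_iff, allN_iff, Bool.or_eq_true,
    Bool.or_eq_true] at h
  obtain ⟨hfl, hanti, hpar, ha0, ha1, hus, hs0, hs1⟩ := h
  have hflag : ∀ k, k < 7 → _ := fun k hk => by
    have h := hfl k hk
    unfold chkFlag at h
    simp only [force_eq, Bool.and_eq_true] at h
    exact h
  have es : ∀ k, Nat.mod (Nat.shiftRight (ent (row NB 140 f) k) 13) 2 = sN f k := by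
    intro k
    rw [shr]
    rfl
  have ek : ∀ k, Nat.shiftRight (ent (row NB 140 f) k) 14 = kN f k := by
    intro k
    rw [shr]
    rfl
  have eg : ∀ k, Nat.mod (ent (row NB 140 f) k) 8192 = gN f k := fun k => rfl
  simp only [es, ek, eg] at hflag
  refine ⟨fun k hk => ?_, fun k hk => ?_, fun k hk => ?_, fun k hk => ?_, fun k hk => ?_,
    fun k hk => ?_, ?_, ha0, ha1, hus, ?_, ?_⟩
  · exact Nat.le_of_ble_eq_true (hflag k hk).1
  · exact Nat.le_of_ble_eq_true (hflag k hk).2.1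
  · exact Nat.eq_of_beq_eq_true (hflag k hk).2.2.1
  · exact Nat.eq_of_beq_eq_true (hflag k hk).2.2.2.1
  · obtain ⟨-, -, -, -, h1, h2, h3⟩ := hflag k hk
    exact ⟨_, fun i => nib_lt _ i, Nat.le_of_ble_eq_true h1, Nat.le_of_ble_eq_true h2,
      Nat.eq_of_beq_eq_true h3⟩
  · exact Nat.eq_of_beq_eq_true (hanti k hk)
  · rcases hpar with h | h
    · exact Or.inl (Nat.eq_of_beq_eq_true h)
    · obtain ⟨k, hk, h⟩ := anyN_imp h
      exact Or.inr ⟨k, hk, Nat.le_of_ble_eq_true h⟩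
  · rcases hs0 with h | h
    · exact Or.inl (Nat.eq_of_beq_eq_true h)
    · exact Or.inr (anyN_imp h)
  · exact anyN_imp hs1

theorem ok_of_block {R f₀ n : ℕ} (h : chkBlock R f₀ n = true) {f : ℕ} (h1 : f₀ ≤ f)
    (h2 : f < f₀ + n) : OK f := by
  unfold chkBlock at h
  rw [allN_iff] at h
  have h3 := h (f - f₀) (by omega)
  rw [force_eq] at h3
  have h4 : Nat.add f₀ (f - f₀) = f := by
    change f₀ + (f - f₀) = f
    omega
  rw [h4] at h3
  exact ok_of_chk h3

theorem ok {f : ℕ} (hf : f < 5096) : OK f := by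
  rcases lt_or_ge f 640 with h | h
  · exact ok_of_block c0 (by omega) (by omega)
  rcases lt_or_ge f 1280 with h' | h'
  · exact ok_of_block c1 (by omega) (by omega)
  rcases lt_or_ge f 1920 with h | h
  · exact ok_of_block c2 (by omega) (by omega)
  rcases lt_or_ge f 2560 with h' | h'
  · exact ok_of_block c3 (by omega) (by omega)
  rcases lt_or_ge f 3200 with h | h
  · exact ok_of_block c4 (by omega) (by omega)
  rcases lt_or_ge f 3840 with h' | h'
  · exact ok_of_block c5 (by omega) (by omega)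
  rcases lt_or_ge f 4480 with h | h
  · exact ok_of_block c6 (by omega) (by omega)
  · exact ok_of_block c7 (by omega) (by omega)

end Pool.Agent.Q134.RP6
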