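import Pool.Agent.Q134.RP6.Inst

/-!
The number of vertices.
-/

set_option autoImplicit false

namespace Pool.Agent.Q134.RP6

open Finset Pool.Agent.Q134.Fan

/-- the vertices which are used -/
noncomputable def used : Finset (Fin 128) := univ.filter fun i => US.testBit (i : ℕ) = true

theorem card_used : used.card = 43 := by decide +kernel

theorem us_anti : ∀ m : Fin 256, US.testBit (m : ℕ) = true → US.testBit (ph m).1 = true := by
  decide +kernel

/-- places at which the vertices occur -/
def wit : List ℕ := [0, 392, 70, 581, 1, 265, 198, 37, 23, 552, 56, 2, 3, 4, 88, 122, 5, 12, 109, 762, 68,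
  6, 215, 2657, 698, 19, 250, 914, 47, 1293, 116, 529, 285, 984, 1097, 1236, 1034, 500,
  138, 642, 236, 33, 55]

theorem wit_lt : ∀ w ∈ wit, w < 5096 * 7 := by decide +kernel

theorem wit_spec : ∀ i : Fin 128, US.testBit (i : ℕ) = true →
    ∃ w ∈ wit, (ph (V 0 (w / 7) (w % 7))).1 = i := by
  decide +kernel

theorem verts : {i : Fin 128 | ∃ f k, (DD.vtx f k).1 = i} = (used : Set (Fin 128)) := by
  ext i
  simp only [Set.mem_setOf_eq, used, Finset.coe_filter, Finset.mem_univ, true_and]
  constructor
  · rintro ⟨f, k, rfl⟩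
    have h0 : ∀ (f : Fin 5096) (k : Fin 7), US.testBit (ph (mk (f, false) k)).1 = true := by
      intro f k
      apply us_anti ⟨mk (f, false) k, mk_lt _ _⟩
      exact sub_testBit (ok f.2).used (msk_testBit _ _ k.2)
    rcases f with ⟨f, b⟩
    cases b
    · exact h0 f k
    · change US.testBit (ph (mk (f, true) k)).1 = true
      have h1 : mk (f, true) k = 255 - mk (f, false) k.rev := mk_anti f false k
      rw [h1, ph_neg (mk_lt _ _)]
      exact h0 f k.rev
  · intro h
    obtain ⟨w, hw, h1⟩ := wit_spec i h
    have h2 := wit_lt w hw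
    exact ⟨(⟨w / 7, by omega⟩, false), ⟨w % 7, by omega⟩, h1⟩

theorem ncard_vertices : (cplx DD).vertices.ncard = 43 := by
  rw [vertices_eq, verts, Set.ncard_image_of_injective _ bs_inj, Set.ncard_coe_finset, card_used]

end Pool.Agent.Q134.RP6
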